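import Mathlib
import Pool.Agent.R330.GL.Top
import Pool.Agent.H618.GZ.Tree

/-!
# The gcd recursion for Goldbach pairs: the Farey tree of large gcds without loss
-/

set_option autoImplicit false

namespace Pool.Agent.H618.GL

open Finset Pool.Agent.R330.GL Pool.Agent.H618.GZ

variable {N f : ℕ} {a γ : ℕ → ℤ}

/-- the odd steps in `(n, m]` -/
def O (n m : ℕ) : Finset ℕ := (Ioc n m).filter (fun j => j % 2 = 1)

lemma mem_O {n m j : ℕ} : j ∈ O n m ↔ n < j ∧ j ≤ m ∧ j % 2 = 1 := by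
  unfold O
  rw [mem_filter, mem_Ioc]
  tauto

lemma telescope (h : Des N f a γ) {n : ℕ} (hn : 1 ≤ n) :
    ∀ m, n ≤ m → m ≤ f → a n - a m = ∑ j ∈ Ioc n m, γ j := by
  intro m hm
  induction m, hm using Nat.le_induction with
  | base => intro _; simp
  | succ m hm ih =>
    intro hmf
    have h1 := ih (by omega)
    have h2 := h.step (m + 1) (by omega) hmf
    rw [Nat.add_sub_cancel] at h2
    rw [sum_Ioc_succ_top hm, ← h1, h2]
    ring

lemma oddsum (h : Des N f a γ) {n m : ℕ} (hn : 1 ≤ n) (hnm : n ≤ m) (hm : m ≤ f) :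
    a n - a m ≤ ∑ j ∈ O n m, γ j + (f : ℤ) ^ 2 := by
  classical
  rw [telescope h hn m hnm hm, ← sum_filter_add_sum_filter_not (Ioc n m) (fun j => j % 2 = 1)]
  have h1 : ∑ j ∈ (Ioc n m).filter (fun j => ¬ j % 2 = 1), γ j ≤ (f : ℤ) ^ 2 := by
    calc ∑ j ∈ (Ioc n m).filter (fun j => ¬ j % 2 = 1), γ j
        ≤ ∑ j ∈ (Ioc n m).filter (fun j => ¬ j % 2 = 1), (f : ℤ) := by
          apply sum_le_sum
          intro j hj
          rw [mem_filter, mem_Ioc] at hj
          have h1 := h.even_le (n := j) (by omega) (by omega) (by omega)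
          have h2 : (j : ℤ) ≤ f := by exact_mod_cast (by omega : j ≤ f)
          linarith
      _ = (((Ioc n m).filter (fun j => ¬ j % 2 = 1)).card : ℤ) * f := by
          rw [sum_const, nsmul_eq_mul]
      _ ≤ (f : ℤ) * f := by
          apply mul_le_mul_of_nonneg_right _ (by positivity)
          have : ((Ioc n m).filter (fun j => ¬ j % 2 = 1)).card ≤ f :=
            (card_filter_le _ _).trans (by rw [Nat.card_Ioc]; omega)
          exact_mod_cast this
      _ = (f : ℤ) ^ 2 := (sq _).symm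
  unfold O
  linarith

/-- the Farey tree of large gcds -/
lemma farey2 (h : Des N f a γ) (hN : 0 < N) (K : ℕ)
    (hbK : (f : ℤ) ^ 2 * 4096 ^ K ≤ 4 * 4096 ^ 2 * N) :
    ∀ r p q : ℕ, K < p + q + r → 1 ≤ p → 1 ≤ q → ∀ n m : ℕ, 2 ≤ n → m ≤ f → n < m →
      n % 2 = 1 → m % 2 = 1 →
      4 * 4096 * (N : ℤ) ≤ γ n * 4096 ^ p → 4 * 4096 * (N : ℤ) ≤ γ m * 4096 ^ q →
      (S p q K).card + 1 ≤ m - n := by
  classical
  have hN0 : (0 : ℤ) < N := by exact_mod_cast hN
  have hW : 0 < 4 * 4096 * (N : ℤ) := by positivity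
  intro r
  induction r with
  | zero =>
    intro p q hK hp hq n m hn hm hnm _ _ _ _
    rw [S_empty p q K hp hq (by omega)]
    omega
  | succ r ih =>
    intro p q hK hp hq n m hn hm hnm hno hmo h1 h2
    rcases Nat.lt_or_ge K (p + q) with hlt | hge
    · rw [S_empty p q K hp hq hlt]
      omega
    have hgk := h.pos n hn (by omega)
    have hgm := h.pos m (by omega) hm
    have hprod : (4 * 4096 * (N : ℤ)) * (4 * 4096 * N) ≤ γ n * γ m * 4096 ^ (p + q) := by
      calc (4 * 4096 * (N : ℤ)) * (4 * 4096 * N) ≤ (γ n * 4096 ^ p) * (γ m * 4096 ^ q) :=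
            mul_le_mul h1 h2 hW.le (by positivity)
        _ = γ n * γ m * 4096 ^ (p + q) := by rw [pow_add]; ring
    have hbPQ : (4096 : ℤ) ^ (p + q) ≤ 4096 ^ K := pow_le_pow_right₀ (by norm_num) hge
    have hgg : 0 ≤ γ n * γ m := by positivity
    have hbig : 4 * ((N : ℤ) * f ^ 2) ≤ γ n * γ m := by
      have h3 : (4 * 4096 * (N : ℤ)) * (4 * 4096 * N) ≤ γ n * γ m * 4096 ^ K :=
        hprod.trans (mul_le_mul_of_nonneg_left hbPQ hgg)
      have h4 : 4 * ((N : ℤ) * f ^ 2) * 4096 ^ K ≤ γ n * γ m * 4096 ^ K := by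
        have h5 : ((f : ℤ) ^ 2 * 4096 ^ K) * (4 * N) ≤ (4 * 4096 ^ 2 * N) * (4 * N) :=
          mul_le_mul_of_nonneg_right hbK (by linarith)
        have e1 : 4 * ((N : ℤ) * f ^ 2) * 4096 ^ K = ((f : ℤ) ^ 2 * 4096 ^ K) * (4 * N) := by ring
        have e2 : (4 * 4096 ^ 2 * (N : ℤ)) * (4 * N) = (4 * 4096 * (N : ℤ)) * (4 * 4096 * N) := by
          ring
        rw [e1]
        exact h5.trans (e2.le.trans h3)
      exact le_of_mul_le_mul_right h4 (by positivity)
    have hkey := h.key hn hm hnm hno hmo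
    have hodd := oddsum h (n := n) (m := m - 1) (by omega) (by omega) (by omega)
    set D : ℤ := ∑ j ∈ O n (m - 1), γ j with hD
    have hgD : γ n * γ m ≤ 4 * N * D := by
      have h5 : 2 * (N : ℤ) * (a n - a (m - 1)) ≤ 2 * N * (D + (f : ℤ) ^ 2) :=
        mul_le_mul_of_nonneg_left hodd (by positivity)
      have h6 : 2 * (N : ℤ) * (D + (f : ℤ) ^ 2) = 2 * N * D + 2 * (N * (f : ℤ) ^ 2) := by ring
      have h7 : 4 * (N : ℤ) * D = 2 * N * D + 2 * N * D := by ring
      linarith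
    have hDb : 4 * 4096 ^ 2 * (N : ℤ) ≤ D * 4096 ^ (p + q) := by
      have h5 : (4 * 4096 ^ 2 * (N : ℤ)) * (4 * N) ≤ (D * 4096 ^ (p + q)) * (4 * N) := by
        calc (4 * 4096 ^ 2 * (N : ℤ)) * (4 * N) = (4 * 4096 * N) * (4 * 4096 * N) := by ring
          _ ≤ γ n * γ m * 4096 ^ (p + q) := hprod
          _ ≤ (4 * N * D) * 4096 ^ (p + q) := mul_le_mul_of_nonneg_right hgD (by positivity)
          _ = _ := by ring
      exact le_of_mul_le_mul_right h5 (by linarith)
    have hD0 : 0 < D := by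
      have h5 : 0 < D * 4096 ^ (p + q) := lt_of_lt_of_le (by positivity) hDb
      exact (mul_pos_iff_of_pos_right (by positivity)).mp h5
    have hcs := card_S_le p q K hp hq
    rcases pig (O n (m - 1)) γ (fun j hj => by
        rw [mem_O] at hj
        exact h.pos j (by omega) (by omega)) D hD hD0 with ⟨j, hj, hjD⟩ | ⟨v, hv, hcard⟩
    · rw [mem_O] at hj
      have hjW : 4 * 4096 * (N : ℤ) ≤ γ j * 4096 ^ (p + q) := by
        have h5 := mul_le_mul_of_nonneg_right hjD (show (0 : ℤ) ≤ 4096 ^ (p + q) by positivity)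
        have h6 : (4 * 4096 * (N : ℤ)) * 4096 ≤ (γ j * 4096 ^ (p + q)) * 4096 := by
          calc (4 * 4096 * (N : ℤ)) * 4096 = 4 * 4096 ^ 2 * N := by ring
            _ ≤ D * 4096 ^ (p + q) := hDb
            _ ≤ γ j * 4096 * 4096 ^ (p + q) := h5
            _ = _ := by ring
        exact le_of_mul_le_mul_right h6 (by norm_num)
      have i1 := ih p (p + q) (by omega) hp (by omega) n j hn (by omega) (by omega) hno hj.2.2
        h1 hjW
      have i2 := ih (p + q) q (by omega) (by omega) hq j m (by omega) hm (by omega) hj.2.2 hmo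
        hjW h2
      omega
    · set B : Finset ℕ := (O n (m - 1)).filter (fun j => D ≤ γ j * 4096 ^ (v + 1)) with hB
      have hBm : ∀ j ∈ B, n < j ∧ j < m ∧ j % 2 = 1 ∧
          4 * 4096 * (N : ℤ) ≤ γ j * 4096 ^ (p + q + v) := by
        intro j hj
        rw [hB, mem_filter, mem_O] at hj
        obtain ⟨⟨hj1, hj2, hj3⟩, hjD⟩ := hj
        refine ⟨hj1, by omega, hj3, ?_⟩
        have h5 := mul_le_mul_of_nonneg_right hjD (show (0 : ℤ) ≤ 4096 ^ (p + q) by positivity)
        have h6 : (4 * 4096 * (N : ℤ)) * 4096 ≤ (γ j * 4096 ^ (p + q + v)) * 4096 := by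
          calc (4 * 4096 * (N : ℤ)) * 4096 = 4 * 4096 ^ 2 * N := by ring
            _ ≤ D * 4096 ^ (p + q) := hDb
            _ ≤ γ j * 4096 ^ (v + 1) * 4096 ^ (p + q) := h5
            _ = _ := by rw [pow_add _ (p + q) v, pow_succ]; ring
        exact le_of_mul_le_mul_right h6 (by norm_num)
      have hBne : B.Nonempty := by
        rw [← card_pos]
        omega
      set w : ℕ := p + q + v with hw
      set g : ℕ := (S w w K).card + 1 with hg
      have hsp := spread B hBne g (by omega) (by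
        intro i hi j hj hij
        obtain ⟨i1, i2, i3, i4⟩ := hBm i hi
        obtain ⟨j1, j2, j3, j4⟩ := hBm j hj
        exact ih w w (by omega) (by omega) (by omega) i j (by omega) (by omega) hij i3 j3 i4 j4)
      obtain ⟨x1, x2, x3, x4⟩ := hBm _ (B.min'_mem hBne)
      obtain ⟨y1, y2, y3, y4⟩ := hBm _ (B.max'_mem hBne)
      have hxy : B.min' hBne ≤ B.max' hBne := B.min'_le _ (B.max'_mem hBne)
      have i1 := ih p w (by omega) hp (by omega) n _ hn (by omega) x1 hno x3 h1 x4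
      have i2 := ih w q (by omega) (by omega) hq _ m (by omega) hm y2 y3 hmo y4 h2
      have hdiag := card_S_diag w K (by omega)
      have hc1 := card_S_change p (p + q) K v hp (by omega)
      have hc2 := card_S_change q (p + q) K v hq (by omega)
      rw [card_S_comm q (p + q) K hq (by omega), card_S_comm q (p + q + v) K hq (by omega)] at hc2
      have hnum := numerics K (p + q) v (by omega) hv g (B.card - 1) hdiag (by omega)
      rw [← hw] at hc1 hc2
      generalize hE : v * (K / (p + q)) ^ 2 = E at hnum hc1 hc2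
      generalize hF : (B.card - 1) * g = F at hnum hsp
      generalize B.min' hBne = x at *
      generalize B.max' hBne = y at *
      omega

/-- a descent by at least `N / 16` between `k` and `m` contains a large gcd at an odd step, or it
is long -/
lemma part (h : Des N f a γ) (hN : 0 < N) (hf1 : 64 * f ^ 2 ≤ N) (K : ℕ)
    (hbK : (f : ℤ) ^ 2 * 4096 ^ K ≤ 4 * 4096 ^ 2 * N) {k m : ℕ} (hk : 1 ≤ k) (hkm : k ≤ m)
    (hm : m ≤ f) (hD : (N : ℤ) ≤ 16 * (a k - a m)) :
    (∃ j, k < j ∧ j ≤ m ∧ j % 2 = 1 ∧ 4 * 4096 * (N : ℤ) ≤ γ j * 4096 ^ 3) ∨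
      K ^ 2 ≤ 180 * f := by
  classical
  have hN0 : (0 : ℤ) < N := by exact_mod_cast hN
  have hF1 : 64 * (f : ℤ) ^ 2 ≤ N := by exact_mod_cast hf1
  have hodd := oddsum h hk hkm hm
  set D : ℤ := ∑ j ∈ O k m, γ j with hDdef
  have hND : (N : ℤ) ≤ 32 * D := by linarith
  have hD0 : 0 < D := by linarith
  rcases pig (O k m) γ (fun j hj => by
      rw [mem_O] at hj
      exact h.pos j (by omega) (by omega)) D hDdef hD0 with ⟨j, hj, hjD⟩ | ⟨v, hv, hcard⟩
  · left
    rw [mem_O] at hj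
    have hgj := h.pos j (by omega) (by omega)
    exact ⟨j, hj.1, hj.2.1, hj.2.2, by linarith⟩
  · right
    set B : Finset ℕ := (O k m).filter (fun j => D ≤ γ j * 4096 ^ (v + 1)) with hB
    have hBm : ∀ j ∈ B, k < j ∧ j ≤ m ∧ j % 2 = 1 ∧
        4 * 4096 * (N : ℤ) ≤ γ j * 4096 ^ (v + 3) := by
      intro j hj
      rw [hB, mem_filter, mem_O] at hj
      obtain ⟨⟨hj1, hj2, hj3⟩, hjD⟩ := hj
      have hgj := h.pos j (by omega) (by omega)
      refine ⟨hj1, hj2, hj3, ?_⟩
      have h5 : (N : ℤ) ≤ 32 * (γ j * 4096 ^ (v + 1)) := by linarith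
      have h6 : 0 ≤ γ j * 4096 ^ (v + 1) := by positivity
      calc 4 * 4096 * (N : ℤ) ≤ 4 * 4096 * (32 * (γ j * 4096 ^ (v + 1))) := by linarith
        _ ≤ 4096 ^ 2 * (γ j * 4096 ^ (v + 1)) := by linarith
        _ = _ := by ring
    have hBne : B.Nonempty := by
      rw [← card_pos]
      omega
    set w : ℕ := v + 3 with hw
    set g : ℕ := (S w w K).card + 1 with hg
    have hsp := spread B hBne g (by omega) (by
      intro i hi j hj hij
      obtain ⟨i1, i2, i3, i4⟩ := hBm i hi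
      obtain ⟨j1, j2, j3, j4⟩ := hBm j hj
      exact farey2 h hN K hbK K w w (by omega) (by omega) (by omega) i j (by omega) (by omega)
        hij i3 j3 i4 j4)
    obtain ⟨x1, x2, _, _⟩ := hBm _ (B.min'_mem hBne)
    obtain ⟨y1, y2, _, _⟩ := hBm _ (B.max'_mem hBne)
    have hdiag := card_S_diag w K (by omega)
    set Z := K / w with hZ
    have hKZ : K < (Z + 1) * w := by
      have := Nat.lt_div_mul_add (a := K) (b := w) (by omega)
      rw [← hZ] at this
      calc K < Z * w + w := this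
        _ = _ := by ring
    have h1 : (B.card - 1) * g ≤ f := by omega
    have h2 : 160 * v ^ 3 * g ≤ f := (Nat.mul_le_mul_right _ (by omega)).trans h1
    have h3 : 8 * v ^ 3 * (Z + 1) ^ 2 ≤ f := by
      calc 8 * v ^ 3 * (Z + 1) ^ 2 ≤ 8 * v ^ 3 * (20 * g) := Nat.mul_le_mul_left _ hdiag
        _ = 160 * v ^ 3 * g := by ring
        _ ≤ f := h2
    have h4 : w ≤ 4 * v := by omega
    have h5 : K ^ 2 ≤ ((Z + 1) * (4 * v)) ^ 2 :=
      Nat.pow_le_pow_left (hKZ.le.trans (Nat.mul_le_mul_left _ h4)) 2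
    have h8 : K ^ 2 ≤ 2 * f := by
      have h9 : v ^ 2 * K ^ 2 ≤ v ^ 2 * (2 * f) := by
        have e0 : v ^ 2 * K ^ 2 ≤ 2 * v * f := by
          calc v ^ 2 * (K ^ 2) ≤ v ^ 2 * ((Z + 1) * (4 * v)) ^ 2 := Nat.mul_le_mul_left _ h5
            _ = 2 * v * (8 * v ^ 3 * (Z + 1) ^ 2) := by ring
            _ ≤ 2 * v * f := Nat.mul_le_mul_left _ h3
        have e1 : v ≤ v ^ 2 := by nlinarith
        calc v ^ 2 * K ^ 2 ≤ 2 * v * f := e0
          _ = v * (2 * f) := by ring
          _ ≤ v ^ 2 * (2 * f) := Nat.mul_le_mul_right _ e1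
      exact Nat.le_of_mul_le_mul_left h9 (by positivity)
    omega

/-- the lower bound in a finite form -/
lemma finite2 (h : Des N f a γ) (hf1 : 64 * f ^ 2 ≤ N) (hf2 : 16 * (f + 4) ≤ N) (K : ℕ)
    (hbK : (f : ℤ) ^ 2 * 4096 ^ K ≤ 4 * 4096 ^ 2 * N) : K ^ 2 ≤ 180 * f := by
  classical
  have hge := h.ge
  have hN : 0 < N := by omega
  have hf0 : (0 : ℤ) < f := by exact_mod_cast (by omega : 0 < f)
  have hF1 : 64 * (f : ℤ) ^ 2 ≤ N := by exact_mod_cast hf1
  have hF2 : 16 * ((f : ℤ) + 4) ≤ N := by exact_mod_cast hf2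
  have hex : ∃ k, 1 ≤ k ∧ k ≤ f ∧ (N : ℤ) ≤ 16 * ((N : ℤ) - 2 - a k) :=
    ⟨f, by omega, le_rfl, by rw [h.zero]; linarith⟩
  set n1 := Nat.find hex with hn1
  obtain ⟨hk1, hkf, hk2⟩ := Nat.find_spec hex
  rw [← hn1] at hk1 hkf hk2
  have hn12 : 2 ≤ n1 := by
    by_contra hcon
    have : n1 = 1 := by omega
    rw [this, h.one] at hk2
    linarith
  have hprev : 16 * ((N : ℤ) - 2 - a (n1 - 1)) < N := by
    by_contra hcon
    exact Nat.find_min hex (m := n1 - 1) (by omega) ⟨by omega, by omega, by linarith⟩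
  have hstep := h.step n1 hn12 hkf
  have hn1f : (n1 : ℤ) ≤ f := by exact_mod_cast hkf
  have hg1 : γ n1 ≤ 2 * ((N : ℤ) - 2 - a (n1 - 1)) + f + 4 := by
    have hup := h.up (n := n1 - 1) (by omega) (by omega)
    have hc : ((n1 - 1 : ℕ) : ℤ) = (n1 : ℤ) - 1 := by omega
    rw [hc] at hup
    have hn1' : (2 : ℤ) ≤ n1 := by exact_mod_cast hn12
    rcases Nat.mod_two_eq_zero_or_one n1 with he | ho
    · have := h.even_le hn12 hkf he
      linarith
    · have := h.odd_le hn12 hkf ho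
      linarith
  have hquart : 4 * ((N : ℤ) - 2 - a n1) ≤ N := by
    rw [hstep]
    linarith
  have hone := h.one
  have hzero := h.zero
  rcases part h hN hf1 K hbK (k := 1) (m := n1) le_rfl hk1 hkf (by rw [hone]; exact hk2) with
    ⟨j, j1, j2, j3, j4⟩ | hc
  · rcases part h hN hf1 K hbK (k := n1) (m := f) hk1 hkf le_rfl (by rw [hzero]; linarith) with
      ⟨i, i1, i2, i3, i4⟩ | hc
    · have h3 := farey2 h hN K hbK K 3 3 (by omega) (by norm_num) (by norm_num) j i (by omega) i2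
        (by omega) j3 i3 j4 i4
      have h4 := card_S_diag 3 K (by norm_num)
      have h5 : (K / 3 + 1) ^ 2 ≤ 20 * f := by omega
      have h6 : K ≤ 3 * (K / 3 + 1) := by omega
      have h7 : K ^ 2 ≤ (3 * (K / 3 + 1)) ^ 2 := Nat.pow_le_pow_left h6 2
      calc K ^ 2 ≤ (3 * (K / 3 + 1)) ^ 2 := h7
        _ = 9 * (K / 3 + 1) ^ 2 := by ring
        _ ≤ 9 * (20 * f) := Nat.mul_le_mul_left _ h5
        _ = 180 * f := by ring
    · exact hc
  · exact hc

end Pool.Agent.H618.GL
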